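import Pool.Agent.H860R2.OpenPoint

/-!
A countable Hausdorff space on which the Berner-Juhász open-point game, and its dual game
`G_1(D, D)` for dense sets, are undetermined (in ZFC).
-/

set_option autoImplicit false
set_option linter.style.haveILetI false

open Set Topology

namespace Pool.Agent.Results.MP_f38362_gt.Undetermined

/-- In the open-point game, in inning `n` the first player picks a nonempty open set and the second
player picks a point of it; the first player wins if the picked points form a dense set.
`OpenPlayerWins X`: the first player has a winning strategy `σ` (it depends on the list of the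
points picked so far). -/
def OpenPlayerWins (X : Type) [TopologicalSpace X] : Prop :=
  ∃ σ : List X → Set X, (∀ s, IsOpen (σ s) ∧ (σ s).Nonempty) ∧
    ∀ x : ℕ → X, (∀ n, x n ∈ σ (List.ofFn fun i : Fin n => x i)) → Dense (range x)

/-- The second player has a winning strategy `π` in the open-point game (it depends on the list of
the open sets picked so far, the last of which is the current one). -/
def PointPlayerWins (X : Type) [TopologicalSpace X] : Prop :=
  ∃ π : List (Set X) → X, (∀ s V, IsOpen V → V.Nonempty → π (s ++ [V]) ∈ V) ∧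
    ∀ V : ℕ → Set X, (∀ n, IsOpen (V n) ∧ (V n).Nonempty) →
      ¬ Dense (range fun n => π (List.ofFn fun i : Fin (n + 1) => V i))

/-- In the game `G_1(D, D)` for the family `D` of the dense sets, ONE picks a dense set in inning
`n` and TWO picks a point of it; TWO wins if the picked points form a dense set.
`OneWins X`: ONE has a winning strategy. -/
def OneWins (X : Type) [TopologicalSpace X] : Prop :=
  ∃ σ : List X → Set X, (∀ s, Dense (σ s)) ∧
    ∀ x : ℕ → X, (∀ n, x n ∈ σ (List.ofFn fun i : Fin n => x i)) → ¬ Dense (range x)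

/-- TWO has a winning strategy in the game `G_1(D, D)` for the family `D` of the dense sets. -/
def TwoWins (X : Type) [TopologicalSpace X] : Prop :=
  ∃ τ : List (Set X) → X, (∀ s E, Dense E → τ (s ++ [E]) ∈ E) ∧
    ∀ E : ℕ → Set X, (∀ n, Dense (E n)) →
      Dense (range fun n => τ (List.ofFn fun i : Fin (n + 1) => E i))

section

variable {X : Type} [TopologicalSpace X]

/-- A winning strategy of ONE in `G_1(D, D)` gives one of the second player in the open-point
game. -/
theorem point_of_one [Nonempty X] (h : OneWins X) : PointPlayerWins X := by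
  classical
  obtain ⟨σ, hσ, hwin⟩ := h
  have hpick : ∀ (s : List X) (V : Set X), ∃ x, IsOpen V → V.Nonempty → x ∈ V ∧ x ∈ σ s := by
    intro s V
    by_cases hV : IsOpen V ∧ V.Nonempty
    · obtain ⟨x, hx, hx'⟩ := (hσ s).inter_open_nonempty V hV.1 hV.2
      exact ⟨x, fun _ _ => ⟨hx, hx'⟩⟩
    · exact ⟨Classical.arbitrary X, fun h1 h2 => absurd ⟨h1, h2⟩ hV⟩
  choose pick hpick using hpick
  let pos : List (Set X) → List X := fun l => l.foldl (fun s V => s ++ [pick s V]) []
  have hpos : ∀ l V, pos (l ++ [V]) = pos l ++ [pick (pos l) V] := by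
    intro l V
    simp [pos, List.foldl_append]
  let π : List (Set X) → X := fun l => (pos l).getLast?.getD (Classical.arbitrary X)
  have hπ : ∀ l V, π (l ++ [V]) = pick (pos l) V := by
    intro l V
    simp only [π]
    rw [hpos]
    simp
  refine ⟨π, fun s V hV hne => by rw [hπ]; exact (hpick _ V hV hne).1, fun V hV => ?_⟩
  have hx : ∀ n, π (List.ofFn fun i : Fin (n + 1) => V i) =
      pick (pos (List.ofFn fun i : Fin n => V i)) (V n) := by
    intro n
    rw [List.ofFn_succ_last, hπ]
    rfl
  have hpx : ∀ n, pos (List.ofFn fun i : Fin n => V i) =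
      List.ofFn fun i : Fin n => π (List.ofFn fun j : Fin ((i : ℕ) + 1) => V j) := by
    intro n
    induction n with
    | zero => simp [pos]
    | succ n ih =>
      rw [List.ofFn_succ_last, hpos, List.ofFn_succ_last]
      have h1 : (fun i : Fin n => V (Fin.castSucc i : ℕ)) = fun i : Fin n => V i := rfl
      have h2 : (List.ofFn fun i : Fin n => V (Fin.castSucc i : ℕ)) =
        List.ofFn fun i : Fin n => V i := rfl
      rw [h2]
      have h3 := hx n
      simp only [Fin.val_last]
      rw [h3, ih]
      rfl
  apply hwin
  intro n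
  show π (List.ofFn fun i : Fin (n + 1) => V i) ∈ σ (List.ofFn fun i : Fin n =>
    π (List.ofFn fun j : Fin ((i : ℕ) + 1) => V j))
  rw [hx n, ← hpx n]
  exact (hpick _ (V n) (hV n).1 (hV n).2).2

/-- A winning strategy of TWO in `G_1(D, D)` gives one of the first player in the open-point
game. -/
theorem open_of_two (h : TwoWins X) : OpenPlayerWins X := by
  classical
  obtain ⟨τ, hτ, hwin⟩ := h
  let R : List (Set X) → Set X := fun s => {x | ∃ E, Dense E ∧ τ (s ++ [E]) = x}
  have hR : ∀ s, (interior (R s)).Nonempty := by
    intro s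
    by_contra hcon
    rw [not_nonempty_iff_eq_empty, interior_eq_empty_iff_dense_compl] at hcon
    exact hτ s _ hcon ⟨_, hcon, rfl⟩
  have hE : ∀ (s : List (Set X)) (x : X), ∃ E : Set X, x ∈ R s → Dense E ∧ τ (s ++ [E]) = x := by
    intro s x
    by_cases hx : x ∈ R s
    · obtain ⟨E, hE⟩ := hx
      exact ⟨E, fun _ => hE⟩
    · exact ⟨∅, fun h => absurd h hx⟩
  choose E hE using hE
  let pos : List X → List (Set X) := fun l => l.foldl (fun s x => s ++ [E s x]) []
  have hpos : ∀ l x, pos (l ++ [x]) = pos l ++ [E (pos l) x] := by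
    intro l x
    simp [pos, List.foldl_append]
  refine ⟨fun l => interior (R (pos l)), fun s => ⟨isOpen_interior, hR _⟩, fun x hx => ?_⟩
  let EE : ℕ → Set X := fun n => E (pos (List.ofFn fun i : Fin n => x i)) (x n)
  have hpx : ∀ n, pos (List.ofFn fun i : Fin n => x i) = List.ofFn fun i : Fin n => EE i := by
    intro n
    induction n with
    | zero => simp [pos]
    | succ n ih =>
      rw [List.ofFn_succ_last, hpos, List.ofFn_succ_last]
      have h2 : (List.ofFn fun i : Fin n => x (Fin.castSucc i : ℕ)) =
        List.ofFn fun i : Fin n => x i := rfl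
      rw [h2, ih]
      simp only [EE, Fin.val_last, Fin.val_castSucc]
      rw [ih]
  have hEE : ∀ n, Dense (EE n) ∧ τ (List.ofFn fun i : Fin (n + 1) => EE i) = x n := by
    intro n
    have h1 := hE _ _ (interior_subset (hx n))
    refine ⟨h1.1, ?_⟩
    rw [List.ofFn_succ_last]
    have h2 : (List.ofFn fun i : Fin n => EE (Fin.castSucc i : ℕ)) =
        List.ofFn fun i : Fin n => EE i := rfl
    rw [h2, ← hpx n]
    exact h1.2
  have h3 := hwin EE fun n => (hEE n).1
  have h4 : (fun n => τ (List.ofFn fun i : Fin (n + 1) => EE i)) = x := funext fun n => (hEE n).2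
  rw [h4] at h3
  exact h3

end

open Pool.Agent.H860R2.OP

/-- There is a countable Hausdorff space on which neither player has a winning strategy in the
open-point game, and neither player has a winning strategy in the dual game `G_1(D, D)` (`D` the
family of the dense sets). -/
theorem result : ∃ (X : Type) (_ : TopologicalSpace X), Countable X ∧ T2Space X ∧
    (¬ OpenPlayerWins X ∧ ¬ PointPlayerWins X) ∧ ¬ OneWins X ∧ ¬ TwoWins X := by
  obtain ⟨B, hB, hlam⟩ := exists_lam
  obtain ⟨D, hD⟩ := exists_D
  letI : TopologicalSpace (List ℕ) := topo D B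
  have h1 : ¬ OpenPlayerWins (List ℕ) := by
    rintro ⟨σ, hσ, hwin⟩
    obtain ⟨p, hp, hnd⟩ := open_loses hD hB σ hσ
    exact hnd (hwin p hp)
  have h2 : ¬ PointPlayerWins (List ℕ) := by
    rintro ⟨π, hπ, hwin⟩
    obtain ⟨V, hV, hd⟩ := point_loses hD hlam π hπ
    exact hwin V hV hd
  exact ⟨List ℕ, topo D B, inferInstance, t2, ⟨h1, h2⟩, fun h => h2 (point_of_one h),
    fun h => h1 (open_of_two h)⟩

end Pool.Agent.Results.MP_f38362_gt.Undetermined
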